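import Mathlib
import Pool.Agent.P.MP_754fe6_co.Ends3

namespace Pool.Agent.Results.MP_754fe6_co.LongMiddle

open Pool.Agent.P.MP_754fe6_co

/-- The order of magnitude of the Turan number of the generalised star `St_r(d_1, ..., d_{r-1})`
for large `r`, when all degrees but the first `q` and the last `q` are equal to one, the first `q`
degrees are monotone and the last `q` degrees are arbitrary.  When the first degrees rise, a
short range of `n` just above `d_1 * ... * d_{r-1}` is left out. -/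
theorem result (q : ℕ) : ∃ r0 : ℕ, ∀ r, r0 ≤ r → ∃ C : ℕ, ∀ (n : ℕ) (d : ℕ → ℕ), r ≤ n →
    (∀ t, 1 ≤ d t) → (∀ t, q < t → t + q < r → d t = 1) →
    ((∀ a b, 1 ≤ a → a ≤ b → b ≤ q → d b ≤ d a) ∨ ∀ a b, 1 ≤ a → a ≤ b → b ≤ q → d a ≤ d b) →
    (d 1 < d q → win d 1 (r - 1) ≤ n →
      min (win d 1 q) (win d (r - q) (r - 1)) ^ (2 * q + 2) * win d 1 (r - 1) ^ r ≤ n ^ r) →
    exStar n (degs (r - 1) d) ≤ C * min (n ^ r) (famMax r n d) ∧
      min (n ^ r) (famMax r n d) ≤ C * exStar n (degs (r - 1) d) := by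
  obtain ⟨r1, h1⟩ := Ends.card_le (max q 1) (le_max_right _ _)
  obtain ⟨r2, h2⟩ := Ends.card_le_up (max q 1) (le_max_right _ _)
  refine ⟨r1 + r2 + 2, fun r hr => ?_⟩
  obtain ⟨m, rfl⟩ : ∃ m, r = m + 1 := ⟨r - 1, by omega⟩
  refine ⟨CC (m + 1), fun n d hn hd hone hmono hw => ?_⟩
  rw [add_tsub_cancel_right] at hw ⊢
  refine both_of hd hn (fun h => upper_reduction m n d _ ?_) (fun h => famMax_le hd h hn)
    (pow_le_famMax (by omega) (by omega))
  have one : ∀ t, max q 1 < t → t + max q 1 ≤ m → d t = 1 := fun t t1 t2 =>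
    hone t (by omega) (by omega)
  by_cases hdec : ∀ a b, 1 ≤ a → a ≤ b → b ≤ max q 1 → d b ≤ d a
  · exact h1 m n d (by omega) hd h hdec one
  push Not at hdec
  obtain ⟨a, b, a1, a2, a3, a4⟩ := hdec
  have ab : a ≠ b := fun e => by rw [e] at a4; omega
  have e : max q 1 = q := by omega
  rw [e] at h2 one a3
  have hinc := hmono.resolve_left fun hh => absurd (hh a b a1 a2 a3) (by omega)
  have b1 := hinc 1 a le_rfl a1 (by omega)
  have b2 := hinc b q (by omega) a3 le_rfl
  have b3 := hd 1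
  exact h2 m n d (by omega) hd h hinc (by omega) one (hw (by omega) h)

end Pool.Agent.Results.MP_754fe6_co.LongMiddle
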