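import Mathlib
import Pool.Agent.P.MP_754fe6_co.MostNum2

namespace Pool.Agent.Results.MP_754fe6_co.Most

open Pool.Agent.P.MP_754fe6_co MeasureTheory

/-- The order of magnitude of the Turan number of the generalised star `St_r(d_1, ..., d_{r-1})`,
for every `r`, for all exponent vectors `(log d_i / log n)` outside a closed set that covers a
proportion at most `min (13 / 100) (60 / r ^ 2)` of the simplex. -/
theorem result (r : ℕ) (hr : 2 ≤ r) : ∃ (C : ℕ) (A : Set (Fin (r - 1) → ℝ)), IsOpen A ∧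
    volume (expSimplex (r - 1) \ A) ≤
      ENNReal.ofReal (min (13 / 100) (60 / (r : ℝ) ^ 2)) * volume (expSimplex (r - 1)) ∧
    ∀ (n : ℕ) (d : ℕ → ℕ), r ≤ n → (∀ t, 1 ≤ d t) →
      (fun i : Fin (r - 1) => Real.log (d (i + 1)) / Real.log n) ∈ A →
      exStar n (degs (r - 1) d) ≤ C * min (n ^ r) (famMax r n d) ∧
        min (n ^ r) (famMax r n d) ≤ C * exStar n (degs (r - 1) d) := by
  obtain ⟨m, rfl⟩ : ∃ m, r = m + 1 := ⟨r - 1, by omega⟩
  obtain ⟨-, A, a1, a2, a3⟩ := cov_main (m := m) (by omega)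
  refine ⟨CC (m + 1), A, a1, by push_cast; exact a2, fun n d hn hd h => ?_⟩
  obtain ⟨p, q⟩ := a3 (ev n d) h
  exact both_of hd hn
    (fun hw => upper_good hd (by omega) (by omega) hw p (q ev_nn (sw_nn hd (by omega) hw)))
    (fun hw => famMax_le hd hw hn) (pow_le_famMax (by omega) (by omega))

end Pool.Agent.Results.MP_754fe6_co.Most
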