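import Mathlib
import Pool.Agent.P.MP_754fe6_co.DLow
import Pool.Agent.P.MP_754fe6_co.D6

namespace Pool.Agent.Results.MP_754fe6_co.UpToSix

open Pool.Agent.P.MP_754fe6_co

/-- The order of magnitude of the Turan number of the generalised star `St_r(d_1, ..., d_{r-1})`
for `r ≤ 6` and all degree sequences. -/
theorem result (r : ℕ) (hr : 2 ≤ r) (hr6 : r ≤ 6) : ∃ C : ℕ, ∀ (n : ℕ) (d : ℕ → ℕ), r ≤ n →
    (∀ t, 1 ≤ d t) →
    exStar n (degs (r - 1) d) ≤
        C * min (n ^ r) (max (famMax r n d) (if r = 6 then extraSix n d else 0)) ∧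
      min (n ^ r) (max (famMax r n d) (if r = 6 then extraSix n d else 0)) ≤
        C * exStar n (degs (r - 1) d) := by
  obtain ⟨m, rfl⟩ : ∃ m, r = m + 1 := ⟨r - 1, by omega⟩
  refine ⟨CC (m + 1), fun n d hn hd => ?_⟩
  rw [add_tsub_cancel_right]
  by_cases h6 : m + 1 = 6
  · rw [if_pos h6]
    obtain rfl : m = 5 := by omega
    exact both_of hd hn (fun h => upper_six hd h D6.all)
      (fun h => max_le (famMax_le hd h hn) (extraSix_le hd h hn))
      fun h => (pow_le_famMax (by omega) (by omega) h).trans (le_max_left _ _)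
  rw [if_neg h6, max_eq_left (Nat.zero_le _)]
  refine both_of hd hn (fun h => upper_fam hd h (by omega) ?_) (fun h => famMax_le hd h hn)
    (pow_le_famMax (by omega) (by omega))
  obtain rfl | rfl | rfl | rfl : m = 1 ∨ m = 2 ∨ m = 3 ∨ m = 4 := by omega
  exacts [D2.all, D3.all, D4.all, D5.all]

end Pool.Agent.Results.MP_754fe6_co.UpToSix
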