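import Mathlib
import Pool.Agent.P.MP_754fe6_co.Valley

namespace Pool.Agent.Results.MP_754fe6_co.Valley

open Pool.Agent.P.MP_754fe6_co

/-- The order of magnitude of the Turan number of the generalised star `St_r(d_1, ..., d_{r-1})`
for every `r` and every valley-shaped (quasi-convex) degree sequence. -/
theorem result (r : ℕ) (hr : 2 ≤ r) : ∃ C : ℕ, ∀ (n : ℕ) (d : ℕ → ℕ), r ≤ n → (∀ t, 1 ≤ d t) →
    (∀ a b c, 1 ≤ a → a < b → b < c → c < r → d b ≤ max (d a) (d c)) →
    exStar n (degs (r - 1) d) ≤ C * min (n ^ r) (windowMax r n d) ∧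
      min (n ^ r) (windowMax r n d) ≤ C * exStar n (degs (r - 1) d) := by
  obtain ⟨m, rfl⟩ : ∃ m, r = m + 1 := ⟨r - 1, by omega⟩
  refine ⟨CC (m + 1), fun n d hn hd hv => ?_⟩
  rw [add_tsub_cancel_right]
  exact both_of hd hn (upper_window hd)
    (fun h => valley_lower hd h hn fun a b c h1 h2 h3 h4 => hv a b c h1 h2 h3 (by omega))
    (pow_le_windowMax (by omega) (by omega))

end Pool.Agent.Results.MP_754fe6_co.Valley
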